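import Pool.Agent.Helper35.PQF.St

/-!
# Module CC of project PM: good representatives of conjugacy classes
-/

set_option autoImplicit false

open Filter Topology Matrix Set MeasureTheory
open scoped ENNReal ComplexOrder

namespace Pool.Agent.Helper85.PM

open Pool.Agent.Helper35.PM

theorem density_smul (t : ℂ) (ht : t ≠ 0) (P : Mat) : density (t • P) = density P := by
  unfold density
  rw [Matrix.trace_smul, smul_smul, smul_eq_mul, mul_inv, mul_assoc, mul_comm (P.trace)⁻¹ t,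
    ← mul_assoc, inv_mul_cancel₀ ht, one_mul]

theorem density_conj_density (A Q : Mat) (hQ : Q.PosDef) :
    density (A * density Q * Aᴴ) = density (A * Q * Aᴴ) := by
  have ht : (Q.trace)⁻¹ ≠ 0 := inv_ne_zero (ne_of_gt hQ.trace_pos)
  have : A * density Q * Aᴴ = (Q.trace)⁻¹ • (A * Q * Aᴴ) := by
    unfold density
    rw [Matrix.mul_smul, Matrix.smul_mul]
  rw [this, density_smul _ ht]

theorem density_add (C : Set Mat) (hC : Convex ℝ C) (P Q : Mat) (hP : P.PosDef) (hQ : Q.PosDef)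
    (hPC : density P ∈ C) (hQC : density Q ∈ C) : density (P + Q) ∈ C := by
  have h1 : 0 < P.trace := hP.trace_pos
  have h2 : 0 < Q.trace := hQ.trace_pos
  obtain ⟨h1r, h1i⟩ := Complex.lt_def.1 h1
  obtain ⟨h2r, h2i⟩ := Complex.lt_def.1 h2
  simp only [Complex.zero_re, Complex.zero_im] at h1r h1i h2r h2i
  have e1 : P.trace = ((P.trace.re : ℝ) : ℂ) := Complex.ext (by simp) (by simp [← h1i])
  have e2 : Q.trace = ((Q.trace.re : ℝ) : ℂ) := Complex.ext (by simp) (by simp [← h2i])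
  set a := P.trace.re with ha
  set b := Q.trace.re with hb
  have hab : 0 < a + b := add_pos h1r h2r
  have h3 := hC hPC hQC (a := a / (a + b)) (b := b / (a + b)) (by positivity) (by positivity)
    (by field_simp)
  have h4 : density (P + Q) = (a / (a + b)) • density P + (b / (a + b)) • density Q := by
    unfold density
    rw [Matrix.trace_add, e1, e2]
    ext i j
    simp only [Matrix.add_apply, Matrix.smul_apply, smul_eq_mul, Complex.real_smul]
    push_cast
    have hac : (a : ℂ) ≠ 0 := by exact_mod_cast h1r.ne'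
    have hbc : (b : ℂ) ≠ 0 := by exact_mod_cast h2r.ne'
    have habc : (a : ℂ) + b ≠ 0 := by exact_mod_cast hab.ne'
    field_simp
  rw [h4]
  exact h3

theorem cc (hs2 : St_HS2) (dp1 : St_DP1) (dp2 : St_DP2) (dp3 : St_DP3) (fo : St_FO) : St_CC := by
  intro Γ _ ρ hdisc hcc
  obtain ⟨d1, d2, d3, d4⟩ := dp1
  obtain ⟨C, K, ⟨P, hPC⟩, hconv, hCpos, hCinv, hK, hKpos, hcov⟩ := id hcc
  obtain ⟨c, hc, hcK⟩ := dp2 K hK hKpos
  have hP := (hCpos P hPC).1
  have hdP : density P = P := by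
    unfold density
    rw [(hCpos P hPC).2, inv_one, one_smul]
  -- translates
  have hB : ∀ g : Γ, density ((ρ g : Mat) * P * (ρ g : Mat)ᴴ) ∈ C := fun g => hCinv g P hPC
  have hBp : ∀ g : Γ, ((ρ g : Mat) * P * (ρ g : Mat)ᴴ).PosDef := fun g => d3 (ρ g) P hP
  have claim : ∀ γ : Γ, ∃ Q : Mat, Q.PosDef ∧ density Q ∈ C ∧
      disp (ρ γ : Mat) Q ≤ 3 * Real.exp (tl (ρ γ)) := by
    intro γ
    rcases (hs2.2.2.1 (ρ γ)).1.lt_or_eq with h | h
    · obtain ⟨n, hn⟩ := dp3 (ρ γ) h P hP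
      refine ⟨_, ?_, ?_, hn⟩
      · exact (d3 ((ρ γ) ^ n) P hP).add (d3 (((ρ γ) ^ n)⁻¹) P hP)
      · refine density_add C hconv _ _ (d3 ((ρ γ) ^ n) P hP) (d3 (((ρ γ) ^ n)⁻¹) P hP) ?_ ?_
        · have := hB (γ ^ n)
          rwa [map_pow] at this
        · have := hB ((γ ^ n)⁻¹)
          rwa [map_inv, map_pow] at this
    · obtain ⟨n, hn, hγ⟩ := fo Γ ρ hdisc hcc γ h.symm
      have hsum : ∀ m : ℕ, 1 ≤ m →
          (∑ j ∈ Finset.range m, (ρ (γ ^ j) : Mat) * P * (ρ (γ ^ j) : Mat)ᴴ).PosDef ∧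
          density (∑ j ∈ Finset.range m, (ρ (γ ^ j) : Mat) * P * (ρ (γ ^ j) : Mat)ᴴ) ∈ C := by
        intro m hm
        induction m, hm using Nat.le_induction with
        | base =>
          rw [Finset.sum_range_one]
          exact ⟨hBp _, hB _⟩
        | succ m hm ih =>
          rw [Finset.sum_range_succ]
          exact ⟨ih.1.add (hBp _), density_add C hconv _ _ ih.1 (hBp _) ih.2 (hB _)⟩
      obtain ⟨hQ1, hQ2⟩ := hsum n hn
      set Q : Mat := ∑ j ∈ Finset.range n, (ρ (γ ^ j) : Mat) * P * (ρ (γ ^ j) : Mat)ᴴ with hQ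
      refine ⟨Q, hQ1, hQ2, ?_⟩
      have hinv : (ρ γ : Mat) * Q * (ρ γ : Mat)ᴴ = Q := by
        have e1 : (ρ γ : Mat) * Q * (ρ γ : Mat)ᴴ =
            ∑ j ∈ Finset.range n, (ρ (γ ^ (j + 1)) : Mat) * P * (ρ (γ ^ (j + 1)) : Mat)ᴴ := by
          rw [hQ, Finset.mul_sum, Finset.sum_mul]
          refine Finset.sum_congr rfl fun j _ => ?_
          have e2 : (ρ (γ ^ (j + 1)) : Mat) = (ρ γ : Mat) * (ρ (γ ^ j) : Mat) := by
            rw [pow_succ', map_mul]
            rfl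
          rw [e2, Matrix.conjTranspose_mul]
          simp only [Matrix.mul_assoc]
        rw [e1]
        have e3 := Finset.sum_range_succ
          (fun j => (ρ (γ ^ j) : Mat) * P * (ρ (γ ^ j) : Mat)ᴴ) n
        have e4 := Finset.sum_range_succ'
          (fun j => (ρ (γ ^ j) : Mat) * P * (ρ (γ ^ j) : Mat)ᴴ) n
        rw [e3] at e4
        simp only [hγ, pow_zero] at e4
        exact (add_right_cancel e4).symm
      have hdet : IsUnit Q.det := by
        rw [isUnit_iff_ne_zero]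
        exact ne_of_gt hQ1.det_pos
      have : disp (ρ γ : Mat) Q = 2 := by
        unfold disp
        rw [Matrix.mul_assoc Q⁻¹, Matrix.mul_assoc Q⁻¹, hinv, Matrix.nonsing_inv_mul _ hdet,
          Matrix.trace_one]
        simp
      rw [this, ← h, Real.exp_zero]
      norm_num
  refine ⟨3 / c, by positivity, fun γ => ?_⟩
  obtain ⟨Q, hQ, hQC, hdisp⟩ := claim γ
  obtain ⟨k, hk⟩ := hcov (density Q) hQC
  refine ⟨k, ?_⟩
  have hQ' := (d4 Q hQ).1
  have h1 : disp (ρ (k * γ * k⁻¹) : Mat) ((ρ k : Mat) * density Q * (ρ k : Mat)ᴴ) =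
      disp (ρ γ : Mat) (density Q) := by
    have := d1 (ρ γ) (ρ k) (density Q) hQ'
    rwa [← map_inv, ← map_mul, ← map_mul] at this
  have h2 := hcK _ hk (ρ (k * γ * k⁻¹) : Mat)
  rw [d2 _ _ (d3 (ρ k) (density Q) hQ'), h1, d2 _ _ hQ] at h2
  have h3 : c * hs (ρ (k * γ * k⁻¹) : Mat) ≤ 3 * Real.exp (tl (ρ γ)) := h2.trans hdisp
  rw [div_mul_eq_mul_div, le_div_iff₀ hc]
  linarith [mul_comm c (hs (ρ (k * γ * k⁻¹) : Mat))]

end Pool.Agent.Helper85.PM
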