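import Pool.Agent.Helper62.PM.St2

/-!
# Project PM, module XC: the second difference quotients converge with all derivatives
-/

set_option autoImplicit false

open MeasureTheory Metric Set Filter Topology Polynomial
open scoped RealInnerProductSpace ContDiff

namespace Pool.Agent.Helper85.PM

open Pool.Agent.Helper62.PM
open Pool.Agent.Helper62.Mink

section J

variable {n : ℕ}

/-- the joint function -/
private def un (u : ℝ → E n → ℝ) : ℝ × E n → ℝ := fun q => u q.1 q.2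

private def J (u : ℝ → E n → ℝ) : Prop :=
  ContDiffOn ℝ ∞ (un u) ((univ : Set ℝ) ×ˢ ({0}ᶜ : Set (E n)))

/-- the derivative in the parameter -/
private noncomputable def ds (u : ℝ → E n → ℝ) : ℝ → E n → ℝ :=
  fun t x => fderiv ℝ (un u) (t, x) (1, 0)

private theorem U_open : IsOpen ((univ : Set ℝ) ×ˢ ({0}ᶜ : Set (E n))) :=
  isOpen_univ.prod isOpen_compl_singleton

private theorem U_mem {t : ℝ} {x : E n} (hx : x ≠ 0) :
    (t, x) ∈ ((univ : Set ℝ) ×ˢ ({0}ᶜ : Set (E n))) := ⟨mem_univ _, hx⟩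

private theorem J_at {u : ℝ → E n → ℝ} (h : J u) (t : ℝ) {x : E n} (hx : x ≠ 0) :
    ContDiffAt ℝ ∞ (un u) (t, x) := h.contDiffAt (U_open.mem_nhds (U_mem hx))

private theorem J_df {u : ℝ → E n → ℝ} (h : J u) (t : ℝ) {x : E n} (hx : x ≠ 0) :
    HasFDerivAt (un u) (fderiv ℝ (un u) (t, x)) (t, x) :=
  ((J_at h t hx).differentiableAt (by simp)).hasFDerivAt

private theorem J_hasDeriv {u : ℝ → E n → ℝ} (h : J u) (t : ℝ) {x : E n} (hx : x ≠ 0) :
    HasDerivAt (fun t => u t x) (ds u t x) t := by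
  have h1 : HasDerivAt (fun t : ℝ => (t, x)) ((1 : ℝ), (0 : E n)) t :=
    (hasDerivAt_id t).prodMk (hasDerivAt_const t x)
  exact (J_df h t hx).comp_hasDerivAt t h1

private theorem J_snd {u : ℝ → E n → ℝ} (h : J u) (t : ℝ) {x : E n} (hx : x ≠ 0) (y : E n) :
    fderiv ℝ (u t) x y = fderiv ℝ (un u) (t, x) (0, y) := by
  have h1 : HasFDerivAt (fun x : E n => (t, x)) (ContinuousLinearMap.inr ℝ ℝ (E n)) x :=
    hasFDerivAt_prodMk_right t x
  have h2 : HasFDerivAt (u t) ((fderiv ℝ (un u) (t, x)).comp (ContinuousLinearMap.inr ℝ ℝ (E n))) x :=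
    (J_df h t hx).comp x h1
  rw [h2.fderiv]
  simp

private theorem J_dd {u : ℝ → E n → ℝ} (h : J u) :
    ContDiffOn ℝ ∞ (fderiv ℝ (un u)) ((univ : Set ℝ) ×ˢ ({0}ᶜ : Set (E n))) :=
  h.fderiv_of_isOpen U_open (by simp)

private theorem J_ds {u : ℝ → E n → ℝ} (h : J u) : J (ds u) :=
  (J_dd h).clm_apply contDiffOn_const

/-- the vector field -/
private noncomputable def Vf (a b : E n) : E n →L[ℝ] E n :=
  (innerSL ℝ a).smulRight b - (innerSL ℝ b).smulRight a

private theorem Vf_apply (a b x : E n) :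
    Vf a b x = (inner ℝ a x : ℝ) • b - (inner ℝ b x : ℝ) • a := rfl

private noncomputable def Kf (a b : E n) : ℝ × E n →L[ℝ] ℝ × E n :=
  (ContinuousLinearMap.inr ℝ ℝ (E n)).comp ((Vf a b).comp (ContinuousLinearMap.snd ℝ ℝ (E n)))

private theorem Kf_apply (a b : E n) (q : ℝ × E n) : Kf a b q = (0, Vf a b q.2) := rfl

private theorem Xd_eq {u : ℝ → E n → ℝ} (h : J u) (a b : E n) (t : ℝ) {x : E n} (hx : x ≠ 0) :
    Xd a b (u t) x = fderiv ℝ (un u) (t, x) (Kf a b (t, x)) := by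
  rw [Kf_apply]
  exact J_snd h t hx _

private theorem J_Xd {u : ℝ → E n → ℝ} (h : J u) (a b : E n) : J (fun t => Xd a b (u t)) := by
  have h1 : ContDiffOn ℝ ∞ (fun q => fderiv ℝ (un u) q (Kf a b q))
      ((univ : Set ℝ) ×ˢ ({0}ᶜ : Set (E n))) :=
    (J_dd h).clm_apply (Kf a b).contDiff.contDiffOn
  refine h1.congr ?_
  rintro ⟨t, x⟩ ⟨-, hx⟩
  exact Xd_eq h a b t hx

private theorem J_comm {u : ℝ → E n → ℝ} (h : J u) (a b : E n) (t : ℝ) {x : E n} (hx : x ≠ 0) :
    ds (fun t => Xd a b (u t)) t x = Xd a b (ds u t) x := by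
  have hnh := U_open.mem_nhds (U_mem (t := t) hx)
  have hD : HasFDerivAt (fderiv ℝ (un u)) (fderiv ℝ (fderiv ℝ (un u)) (t, x)) (t, x) :=
    (((J_dd h).contDiffAt hnh).differentiableAt (by simp)).hasFDerivAt
  have e1 : un (fun t => Xd a b (u t)) =ᶠ[𝓝 (t, x)] fun q => fderiv ℝ (un u) q (Kf a b q) := by
    filter_upwards [hnh]
    rintro ⟨t', x'⟩ ⟨-, hx'⟩
    exact Xd_eq h a b t' hx'
  have h1 := hD.clm_apply ((Kf a b).hasFDerivAt (x := (t, x)))
  have l1 : ds (fun t => Xd a b (u t)) t x =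
      fderiv ℝ (fderiv ℝ (un u)) (t, x) (1, 0) (Kf a b (t, x)) := by
    unfold ds
    rw [e1.fderiv_eq, h1.fderiv]
    simp only [add_apply, ContinuousLinearMap.comp_apply,
      ContinuousLinearMap.flip_apply]
    have h0 : Kf a b ((1 : ℝ), (0 : E n)) = 0 := by
      rw [Kf_apply]
      simp
    rw [h0, map_zero, zero_add]
  have h2 : HasFDerivAt (un (ds u))
      ((fderiv ℝ (fderiv ℝ (un u)) (t, x)).flip ((1 : ℝ), (0 : E n))) (t, x) := by
    have h3 : HasFDerivAt (un (ds u)) _ (t, x) :=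
      hD.clm_apply (hasFDerivAt_const ((1 : ℝ), (0 : E n)) (t, x))
    have h4 : (fderiv ℝ (fderiv ℝ (un u)) (t, x)).flip ((1 : ℝ), (0 : E n)) =
        (fderiv ℝ (un u) (t, x)).comp (0 : ℝ × E n →L[ℝ] ℝ × E n) +
          (fderiv ℝ (fderiv ℝ (un u)) (t, x)).flip ((1 : ℝ), (0 : E n)) := by
      rw [ContinuousLinearMap.comp_zero, zero_add]
    rw [h4]
    exact h3
  have l2 : Xd a b (ds u t) x = fderiv ℝ (fderiv ℝ (un u)) (t, x) (Kf a b (t, x)) (1, 0) := by
    rw [Xd_eq (J_ds h) a b t hx, h2.fderiv]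
    rfl
  rw [l1, l2]
  have hs : IsSymmSndFDerivAt ℝ (un u) (t, x) :=
    (J_at h t hx).isSymmSndFDerivAt (by
      rw [minSmoothness_of_isRCLikeNormedField]
      exact WithTop.coe_le_coe.2 le_top)
  exact hs _ _

private theorem Xd_congr {φ ψ : E n → ℝ} (a b : E n) (h : ∀ z, z ≠ 0 → φ z = ψ z) (x : E n)
    (hx : x ≠ 0) : Xd a b φ x = Xd a b ψ x := by
  have e1 : φ =ᶠ[𝓝 x] ψ := by
    filter_upwards [isOpen_compl_singleton.mem_nhds hx] with z hz
    exact h z hz
  unfold Xd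
  rw [e1.fderiv_eq]

private theorem Xw_congr (w : List (Fin n × Fin n)) {φ ψ : E n → ℝ}
    (h : ∀ z, z ≠ 0 → φ z = ψ z) : ∀ x, x ≠ 0 → Xw w φ x = Xw w ψ x := by
  induction w with
  | nil => exact h
  | cons q w ih => exact fun x hx => Xd_congr _ _ ih x hx

private theorem J_Xw (w : List (Fin n × Fin n)) {u : ℝ → E n → ℝ} (h : J u) :
    J (fun t => Xw w (u t)) ∧
      ∀ t x, x ≠ 0 → ds (fun t => Xw w (u t)) t x = Xw w (ds u t) x := by
  induction w with
  | nil => exact ⟨h, fun _ _ _ => rfl⟩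
  | cons q w ih =>
    refine ⟨J_Xd ih.1 _ _, fun t x hx => ?_⟩
    have h1 := J_comm ih.1 (EuclideanSpace.single q.1 (1 : ℝ)) (EuclideanSpace.single q.2 (1 : ℝ))
      t hx
    refine h1.trans ?_
    exact Xd_congr _ _ (fun z hz => ih.2 t z hz) x hx

private theorem S1_add {φ ψ : E n → ℝ} (h : S1 φ) (h' : S1 ψ) : S1 (fun z => φ z + ψ z) :=
  ⟨fun c hc x => by rw [h.hom c hc, h'.hom c hc]; ring, h.smooth.add h'.smooth⟩

private theorem S1_smul (c : ℝ) {φ : E n → ℝ} (h : S1 φ) : S1 (fun z => c * φ z) :=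
  ⟨fun d hd x => by rw [h.hom d hd]; ring, contDiffOn_const.mul h.smooth⟩

private theorem rp_smul (e v : E n) (t c : ℝ) (x : E n) : rp e v t (c • x) = c • rp e v t x := by
  unfold rp
  simp only [inner_smul_right]
  module

private theorem rp_contDiff (e v : E n) :
    ContDiff ℝ ∞ (fun q : ℝ × E n => rp e v q.1 q.2) := by
  unfold rp
  have h1 : ContDiff ℝ ∞ (fun q : ℝ × E n => (inner ℝ e q.2 : ℝ)) :=
    contDiff_const.inner ℝ contDiff_snd
  have h2 : ContDiff ℝ ∞ (fun q : ℝ × E n => (inner ℝ v q.2 : ℝ)) :=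
    contDiff_const.inner ℝ contDiff_snd
  have h3 : ContDiff ℝ ∞ (fun q : ℝ × E n => Real.cos q.1) := Real.contDiff_cos.comp contDiff_fst
  have h4 : ContDiff ℝ ∞ (fun q : ℝ × E n => Real.sin q.1) := Real.contDiff_sin.comp contDiff_fst
  exact (contDiff_snd.add ((((h3.sub contDiff_const).mul h1).sub (h4.mul h2)).smul
    contDiff_const)).add (((h4.mul h1).add ((h3.sub contDiff_const).mul h2)).smul contDiff_const)

end J

theorem hXC : StA → StB → StXA → StXC := by
  intro hA hB hXA n e v φ hev hφ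
  obtain ⟨A1, -, A3, -⟩ := hA n e v hev
  obtain ⟨-, X2, X3, -, -⟩ := hXA n
  have hne : ∀ (t : ℝ) (x : E n), x ≠ 0 → rp e v t x ≠ 0 := by
    intro t x hx
    obtain ⟨θ, -, hθ⟩ := A1 t
    rw [← hθ x]
    intro h
    exact hx (by simpa using h)
  obtain ⟨u, hu⟩ : ∃ u : ℝ → E n → ℝ, u = fun t x => φ (rp e v t x) := ⟨_, rfl⟩
  have hJ : J u := by
    rw [hu]
    refine hφ.smooth.comp (rp_contDiff e v).contDiffOn ?_
    rintro ⟨t, x⟩ ⟨-, hx⟩
    exact hne t x hx
  have hφ0 : φ 0 = 0 := by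
    have := hφ.hom 0 le_rfl 0
    simpa using this
  have hrp0 : ∀ t : ℝ, rp e v t 0 = 0 := by
    intro t
    have := rp_smul e v t 0 0
    simpa using this
  have hu0 : ∀ x, u 0 x = φ x := by
    intro x
    rw [hu]
    simp only [A3]
  have huS : ∀ t, S1 (u t) := by
    intro t
    refine ⟨fun c hc x => ?_, ?_⟩
    · rw [hu]
      simp only [rp_smul]
      exact hφ.hom c hc _
    · have h1 : ContDiffOn ℝ ∞ (fun x : E n => (t, x)) {0}ᶜ :=
        (contDiff_const.prodMk contDiff_id).contDiffOn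
      exact hJ.comp h1 (fun x hx => ⟨mem_univ _, hx⟩)
  -- the value of Lop off zero
  have hL : ∀ x, x ≠ 0 → Lop e v φ x = ds (ds u) 0 x + φ x := by
    intro x hx
    have h1 : (fun t => φ (rp e v t x)) = fun t => u t x := by rw [hu]
    have h2 : deriv (fun t => φ (rp e v t x)) = fun t => ds u t x := by
      rw [h1]
      funext t
      exact (J_hasDeriv hJ t hx).deriv
    unfold Lop
    rw [h2, (J_hasDeriv (J_ds hJ) 0 hx).deriv]
  have hLS : S1 (Lop e v φ) := by
    refine ⟨fun c hc x => ?_, ?_⟩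
    · have h1 : (fun t => φ (rp e v t (c • x))) = fun t => c * φ (rp e v t x) := by
        funext t
        rw [rp_smul, hφ.hom c hc]
      unfold Lop
      rw [h1, hφ.hom c hc]
      have h2 : deriv (fun t => c * φ (rp e v t x)) = fun t => c * deriv (fun t => φ (rp e v t x)) t := by
        funext t
        exact deriv_const_mul_field c
      rw [h2, deriv_const_mul_field]
      ring
    · have h1 : ContDiffOn ℝ ∞ (fun x : E n => ((0 : ℝ), x)) {0}ᶜ :=
        (contDiff_const.prodMk contDiff_id).contDiffOn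
      have h2 : ContDiffOn ℝ ∞ (fun x : E n => ds (ds u) 0 x) {0}ᶜ :=
        (J_ds (J_ds hJ)).comp h1 (fun x hx => ⟨mem_univ _, hx⟩)
      exact (h2.add hφ.smooth).congr (fun x hx => hL x hx)
  refine ⟨hLS, fun w ε hε => ?_⟩
  obtain ⟨J0, D0⟩ := J_Xw w hJ
  obtain ⟨J1, D1⟩ := J_Xw w (J_ds hJ)
  obtain ⟨J2, -⟩ := J_Xw w (J_ds (J_ds hJ))
  have hs0 : ∀ x : sphere (0 : E n) 1, (x : E n) ≠ 0 := fun x => by
    intro h
    have h1 : ‖(x : E n)‖ = 1 := by simp
    rw [h, norm_zero] at h1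
    exact zero_ne_one h1
  have hcomp : IsCompact (sphere (0 : E n) 1) := isCompact_sphere _ _
  have : CompactSpace (sphere (0 : E n) 1) := isCompact_iff_compactSpace.1 hcomp
  obtain ⟨δ, hδ, hmain⟩ := hB (sphere (0 : E n) 1) (fun t x => Xw w (u t) x)
    (fun t x => Xw w (ds u t) x) (fun t x => Xw w (ds (ds u) t) x)
    (fun t x => by
      have h1 := J_hasDeriv J0 t (hs0 x)
      rw [D0 t x (hs0 x)] at h1
      exact h1)
    (fun t x => by
      have h1 := J_hasDeriv J1 t (hs0 x)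
      rw [D1 t x (hs0 x)] at h1
      exact h1)
    (by
      have h1 : Continuous (fun q : ℝ × sphere (0 : E n) 1 => (q.1, (q.2 : E n))) := by fun_prop
      exact J2.continuousOn.comp_continuous h1 (fun q => ⟨mem_univ _, hs0 q.2⟩))
    (by
      have h1 : Continuous (fun x : sphere (0 : E n) 1 => ((0 : ℝ), (x : E n))) := by fun_prop
      exact J0.continuousOn.comp_continuous h1 (fun q => ⟨mem_univ _, hs0 q⟩)) ε hε
  refine ⟨δ, hδ, fun s hs hsδ x hx => ?_⟩
  have hx0 : x ≠ 0 := by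
    intro h
    rw [h, norm_zero] at hx
    exact zero_ne_one hx
  have hxs : x ∈ sphere (0 : E n) 1 := by simpa using hx
  have hm := hmain s hs hsδ ⟨x, hxs⟩
  have q1 : Xw w (quo e v φ s) x =
      (Xw w (u s) x + Xw w (u (-s)) x - 2 * Real.cos s * Xw w (u 0) x) / s ^ 2 := by
    have h1 : quo e v φ s = fun z => (s ^ 2)⁻¹ *
        ((fun z => (fun z => u s z + u (-s) z) z + (fun z => (-2 * Real.cos s) * u 0 z) z) z) := by
      funext z
      simp only [quo, hu, A3]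
      rw [div_eq_inv_mul]
      ring
    rw [h1]
    have s1 := S1_add (huS s) (huS (-s))
    have s2 := S1_smul (-2 * Real.cos s) (huS 0)
    have s3 := S1_add s1 s2
    rw [(X3 w _ _ (s ^ 2)⁻¹ s3 s3 x hx0).2, (X3 w _ _ 0 s1 s2 x hx0).1,
      (X3 w _ _ 0 (huS s) (huS (-s)) x hx0).1, (X3 w _ _ (-2 * Real.cos s) (huS 0) (huS 0) x hx0).2]
    rw [div_eq_inv_mul]
    ring
  have q2 : Xw w (Lop e v φ) x = Xw w (ds (ds u) 0) x + Xw w (u 0) x := by
    have h2 : Xw w (fun z => (fun z => Lop e v φ z + (fun z => (-1) * u 0 z) z) z + u 0 z) x =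
        Xw w (Lop e v φ) x := by
      congr 1
      funext z
      simp
    rw [← h2]
    have s1 := S1_add hLS (S1_smul (-1) (huS 0))
    rw [(X3 w _ _ 0 s1 (huS 0) x hx0).1]
    congr 1
    apply Xw_congr w ?_ x hx0
    intro z hz
    simp only [hL z hz, hu0]
    ring
  rw [q1, q2]
  exact hm

end Pool.Agent.Helper85.PM
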